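import Pool.Agent.U829.CF.Def

set_option autoImplicit false

/-! # Continued fractions of two numbers: statements -/

namespace Pool.Agent.U829.CF

/-- At no scale both continued fractions can be cut into few pieces. -/
def Pieces (u v A : ℝ) : Prop :=
  ∀ (R : ℝ) (m p n m' p' n' : ℕ), 1 ≤ R → 1 ≤ m → 1 ≤ m' → Cut u R m p n → Cut v R m' p' n' →
    min (Real.log (den u n)) (Real.log (den v n')) ≤
      (R + max (Real.log (den u m)) (Real.log (den v m'))) * A ^ (p + p')

/-- If `u` is algebraic then the continued fraction of `v` cannot be cut into few pieces. -/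
def PiecesAlg (u v A : ℝ) : Prop :=
  IsAlgebraic ℤ u → ∀ (R : ℝ) (m p n : ℕ), 1 ≤ R → 1 ≤ m → Cut v R m p n →
    Real.log (den v n) ≤ (R + Real.log (den v m)) * A ^ (p + 1)

/-- Two automata with `S` states which announce numbers `≤ B` cannot both predict the partial quotients with few
errors: at no scale, and not up to the same place. -/
def Errors (u v A : ℝ) : Prop :=
  Irrational u → Irrational v → ∀ (S B : ℕ) (δ δ' : Fin S → ℤ → Fin S) (g g' : Fin S → ℤ) (s s' : Fin S),
    (∀ t, g t ≤ B) → (∀ t, g' t ≤ B) →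
    (∀ m n m' n' : ℕ, 1 ≤ m → m ≤ n → 1 ≤ m' → m' ≤ n' →
      min (Real.log (den u n)) (Real.log (den v n')) ≤
        (S * Real.log (B + 3) + max (Real.log (den u m)) (Real.log (den v m'))) *
          A ^ ((wrong δ g s u m n).ncard + (wrong δ' g' s' v m' n').ncard + 1)) ∧
    ∀ n : ℕ, (n : ℝ) ≤ S * Real.log (B + 3) *
      A ^ ((wrong δ g s u 1 n).ncard + (wrong δ' g' s' v 1 n).ncard + 1)

/-- If `u` is algebraic then an automaton cannot predict the partial quotients of `v` with few errors. -/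
def ErrorsAlg (u v A : ℝ) : Prop :=
  IsAlgebraic ℤ u → ∀ (S B : ℕ) (δ : Fin S → ℤ → Fin S) (g : Fin S → ℤ) (s : Fin S), (∀ t, g t ≤ B) →
    (∀ m n : ℕ, 1 ≤ m → m ≤ n → Real.log (den v n) ≤
      (S * Real.log (B + 3) + Real.log (den v m)) * A ^ ((wrong δ g s v m n).ncard + 1)) ∧
    ∀ n : ℕ, (n : ℝ) ≤ S * Real.log (B + 3) * A ^ ((wrong δ g s v 1 n).ncard + 1)

/-- all these properties, in both directions -/
def Irregular (u v A : ℝ) : Prop :=
  Pieces u v A ∧ Errors u v A ∧ PiecesAlg u v A ∧ PiecesAlg v u A ∧ ErrorsAlg u v A ∧ ErrorsAlg v u A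

end Pool.Agent.U829.CF
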