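import Pool.Agent.U829.CF.Aut
import Pool.Agent.U829.CF.Stm

set_option autoImplicit false

/-! # Continued fractions of two numbers with a joint measure -/

namespace Pool.Agent.U829.CF

open Polynomial

lemma log_den_nonneg (x : ℝ) (n : ℕ) : 0 ≤ Real.log (den x n) := Real.log_intCast_nonneg _

lemma log3 (B : ℕ) : 1 ≤ Real.log ((B : ℝ) + 3) := by
  have h1 : Real.exp 1 ≤ (B : ℝ) + 3 := by
    have h2 := Real.exp_one_lt_d9
    have h3 : (0 : ℝ) ≤ B := Nat.cast_nonneg B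
    linarith
  have h4 := Real.log_le_log (Real.exp_pos 1) h1
  rwa [Real.log_exp] at h4

lemma size_S {S : ℕ} (s : Fin S) (B : ℕ) : 1 ≤ S * Real.log ((B : ℝ) + 3) ∧
    ((B : ℝ) + 1) ^ S ≤ Real.exp (S * Real.log ((B : ℝ) + 3)) := by
  have h1 := log3 B
  have hS : (1 : ℝ) ≤ S := by
    have : 1 ≤ S := by have := s.2; omega
    exact_mod_cast this
  have hB : (0 : ℝ) ≤ B := Nat.cast_nonneg B
  refine ⟨by nlinarith, ?_⟩
  rw [← Real.log_pow, Real.exp_log (by positivity)]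
  apply pow_le_pow_left₀ (by linarith)
  linarith

lemma Pieces.mono {u v A A' : ℝ} (hA : 1 < A) (hAA : A ≤ A') (h : Pieces u v A) : Pieces u v A' := by
  intro R m p n m' p' n' hR hm hm' hc hc'
  refine (h R m p n m' p' n' hR hm hm' hc hc').trans ?_
  have h1 := (log_den_nonneg u m).trans (le_max_left (Real.log (den u m)) (Real.log (den v m')))
  gcongr

lemma PiecesAlg.mono {u v A A' : ℝ} (hA : 1 < A) (hAA : A ≤ A') (h : PiecesAlg u v A) :
    PiecesAlg u v A' := by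
  intro hu R m p n hR hm hc
  refine (h hu R m p n hR hm hc).trans ?_
  have h1 := log_den_nonneg v m
  gcongr

lemma Errors.mono {u v A A' : ℝ} (hA : 1 < A) (hAA : A ≤ A') (h : Errors u v A) : Errors u v A' := by
  intro hu hv S B δ δ' g g' s s' hg hg'
  obtain ⟨h1, h2⟩ := h hu hv S B δ δ' g g' s s' hg hg'
  have hS := (size_S s B).1
  refine ⟨fun m n m' n' hm hmn hm' hmn' => ?_, fun n => ?_⟩
  · refine (h1 m n m' n' hm hmn hm' hmn').trans ?_
    have h3 := (log_den_nonneg u m).trans (le_max_left (Real.log (den u m)) (Real.log (den v m')))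
    gcongr
  · refine (h2 n).trans ?_
    gcongr

lemma ErrorsAlg.mono {u v A A' : ℝ} (hA : 1 < A) (hAA : A ≤ A') (h : ErrorsAlg u v A) :
    ErrorsAlg u v A' := by
  intro hu S B δ g s hg
  obtain ⟨h1, h2⟩ := h hu S B δ g s hg
  have hS := (size_S s B).1
  refine ⟨fun m n hm hmn => ?_, fun n => ?_⟩
  · refine (h1 m n hm hmn).trans ?_
    have h3 := log_den_nonneg v m
    gcongr
  · refine (h2 n).trans ?_
    gcongr

lemma Irregular.mono {u v A A' : ℝ} (hA : 1 < A) (hAA : A ≤ A') (h : Irregular u v A) :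
    Irregular u v A' :=
  ⟨h.1.mono hA hAA, h.2.1.mono hA hAA, h.2.2.1.mono hA hAA, h.2.2.2.1.mono hA hAA,
    h.2.2.2.2.1.mono hA hAA, h.2.2.2.2.2.mono hA hAA⟩

/-- the position from the size of the denominator -/
lemma pos_bound {S : ℕ} (s : Fin S) (B : ℕ) (A : ℝ) (hA : 1 < A) (n E : ℕ) (L : ℝ)
    (hn : (n : ℝ) ≤ 2 + 3 * L) (hL : L ≤ (S * Real.log ((B : ℝ) + 3)) * (A ^ 2) ^ (E + 1)) :
    (n : ℝ) ≤ S * Real.log ((B : ℝ) + 3) * (5 * A ^ 2) ^ (E + 1) := by
  obtain ⟨R, hR⟩ : ∃ R : ℝ, R = S * Real.log ((B : ℝ) + 3) := ⟨_, rfl⟩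
  have hR1 : 1 ≤ R := by rw [hR]; exact (size_S s B).1
  rw [← hR] at hL ⊢
  have hA2 : 1 ≤ A ^ 2 := one_le_pow₀ hA.le
  have h1 : 1 ≤ (A ^ 2) ^ (E + 1) := one_le_pow₀ hA2
  have h2 : 5 ≤ (5 : ℝ) ^ (E + 1) := by
    calc (5 : ℝ) = 5 ^ 1 := by norm_num
      _ ≤ 5 ^ (E + 1) := pow_le_pow_right₀ (by norm_num) (by omega)
  rw [mul_pow]
  have h3 : 1 ≤ R * (A ^ 2) ^ (E + 1) := by nlinarith
  calc (n : ℝ) ≤ 5 * (R * (A ^ 2) ^ (E + 1)) := by linarith
    _ ≤ 5 ^ (E + 1) * (R * (A ^ 2) ^ (E + 1)) := by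
        apply mul_le_mul_of_nonneg_right h2 (by linarith)
    _ = _ := by ring

lemma pos_bound0 {S : ℕ} (s : Fin S) (B : ℕ) (A : ℝ) (E : ℕ) (hA : 1 < A) :
    ((0 : ℕ) : ℝ) ≤ S * Real.log ((B : ℝ) + 3) * (5 * A ^ 2) ^ (E + 1) := by
  have := (size_S s B).1
  push_cast
  positivity

/-- both numbers are algebraic: impossible -/
lemma not_both {u v : ℝ} (h : ∀ D, Joint u v D) (hu : IsAlgebraic ℤ u) (hv : IsAlgebraic ℤ v) :
    False := by
  obtain ⟨P, hP, hPu⟩ := hu
  obtain ⟨Q, hQ, hQv⟩ := hv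
  obtain ⟨κ, C, hκ, hC, hj⟩ := h (max P.natDegree Q.natDegree)
  have hbd : ∀ F : ℤ[X], ∀ k, |((F.coeff k : ℤ) : ℝ)| ≤ ∑ k ∈ Finset.range (F.natDegree + 1),
      |((F.coeff k : ℤ) : ℝ)| := by
    intro F k
    by_cases hk : k ≤ F.natDegree
    · exact Finset.single_le_sum (f := fun k => |((F.coeff k : ℤ) : ℝ)|) (fun _ _ => abs_nonneg _)
        (Finset.mem_range.2 (by omega))
    · rw [coeff_eq_zero_of_natDegree_lt (by omega)]
      simp only [Int.cast_zero, abs_zero]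
      exact Finset.sum_nonneg fun _ _ => abs_nonneg _
  obtain ⟨H, hH⟩ : ∃ H : ℝ, H = (∑ k ∈ Finset.range (P.natDegree + 1), |((P.coeff k : ℤ) : ℝ)|) +
      (∑ k ∈ Finset.range (Q.natDegree + 1), |((Q.coeff k : ℤ) : ℝ)|) + 1 := ⟨_, rfl⟩
  have n1 : 0 ≤ ∑ k ∈ Finset.range (P.natDegree + 1), |((P.coeff k : ℤ) : ℝ)| :=
    Finset.sum_nonneg fun _ _ => abs_nonneg _
  have n2 : 0 ≤ ∑ k ∈ Finset.range (Q.natDegree + 1), |((Q.coeff k : ℤ) : ℝ)| :=
    Finset.sum_nonneg fun _ _ => abs_nonneg _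
  have h1 := hj P Q hP hQ (le_max_left _ _) (le_max_right _ _) H
    (fun k => (hbd P k).trans (by rw [hH]; linarith)) (fun k => (hbd Q k).trans (by rw [hH]; linarith))
  rw [hPu, hQv, abs_zero, max_self] at h1
  have h2 : 0 < C * H ^ (-κ) := by
    have : 0 < H := by rw [hH]; linarith
    positivity
  linarith

lemma irr_of_alg {u v : ℝ} (h : ∀ D, Joint u v D) (hu : IsAlgebraic ℤ u) : Irrational v := by
  rintro ⟨q, rfl⟩
  refine not_both h hu ⟨C (q.den : ℤ) * X - C q.num, ?_, ?_⟩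
  · intro h0
    have h1 := congrArg (fun P : ℤ[X] => P.coeff 1) h0
    simp only [coeff_sub, coeff_C_mul, coeff_X, coeff_C, coeff_zero] at h1
    norm_num at h1
  · simp only [map_sub, map_mul, aeval_C, aeval_X]
    have h1 : (q.den : ℝ) * q = q.num := by exact_mod_cast Rat.den_mul_eq_num q
    simp only [algebraMap_int_eq, eq_intCast, Int.cast_natCast]
    rw [h1, sub_self]

/-- one direction of the algebraic case -/
lemma alg_case {u v : ℝ} (h : ∀ D, Joint u v D) : ∃ A : ℝ, 1 < A ∧ PiecesAlg u v A ∧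
    ErrorsAlg u v A := by
  by_cases hu : IsAlgebraic ℤ u
  · obtain ⟨A, hA, h1⟩ := one_cut h hu
    have hv := irr_of_alg h hu
    have hA2 : A ≤ 5 * A ^ 2 := by nlinarith
    have hcut : ∀ (R : ℝ) (m p n : ℕ), 1 ≤ R → 1 ≤ m → Cut v R m p n →
        Real.log (den v n) ≤ (R + Real.log (den v m)) * A ^ (p + 1) := by
      intro R m p n hR hm hc
      have h2 := h1 R m p n hR hm hc
      rwa [max_eq_right (log_den_nonneg v m)] at h2
    have hP : PiecesAlg u v A := fun _ R m p n hR hm hc => hcut R m p n hR hm hc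
    refine ⟨5 * A ^ 2, by nlinarith, hP.mono hA hA2, ?_⟩
    intro _ S B δ g s hg
    obtain ⟨hS1, hS2⟩ := size_S s B
    have hmain : ∀ m n : ℕ, 1 ≤ m → m ≤ n → Real.log (den v n) ≤
        (S * Real.log ((B : ℝ) + 3) + Real.log (den v m)) *
          (A ^ 2) ^ ((wrong δ g s v m n).ncard + 1) := by
      intro m n hm hmn
      obtain ⟨p, hp, hc⟩ := cut_of_wrong δ g s v B hg _ hS2 m hm n hmn (gen_irr hv n)
      refine (hcut _ m p n hS1 hm hc).trans ?_
      have h3 := log_den_nonneg v m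
      rw [← pow_mul]
      have h4 : A ^ (p + 1) ≤ A ^ (2 * ((wrong δ g s v m n).ncard + 1)) :=
        pow_le_pow_right₀ hA.le (by omega)
      gcongr
    refine ⟨fun m n hm hmn => (hmain m n hm hmn).trans ?_, fun n => ?_⟩
    · have h3 := log_den_nonneg v m
      have h4 : A ^ 2 ≤ 5 * A ^ 2 := by nlinarith
      gcongr
    · rcases Nat.eq_zero_or_pos n with hn | hn
      · subst hn
        exact pos_bound0 s B A _ hA
      · have h3 := hmain 1 n le_rfl hn
        have e : Real.log ((den v 1 : ℤ) : ℝ) = 0 := by simp [den]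
        rw [e, add_zero] at h3
        exact pos_bound s B A hA n _ _ (pos_le n hn (gen_irr hv n)) h3
  · exact ⟨2, by norm_num, fun h' => absurd h' hu, fun h' => absurd h' hu⟩

/-- **The theorem for pairs with a joint measure.** -/
theorem irregular {u v : ℝ} (h : ∀ D, Joint u v D) (h' : ∀ D, Joint v u D) :
    ∃ A : ℝ, 1 < A ∧ Irregular u v A := by
  obtain ⟨A, hA, h1⟩ := two_cuts (h 2)
  have hcut : Pieces u v A := by
    intro R m p n m' p' n' hR hm hm' hc hc'
    have h2 := h1 R m p n m' p' n' hR hm hm' hc hc'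
    rwa [max_eq_right ((log_den_nonneg u m).trans (le_max_left _ _))] at h2
  have hA2 : A ≤ 5 * A ^ 2 := by nlinarith
  have hE : Errors u v (5 * A ^ 2) := by
    intro hu hv S B δ δ' g g' s s' hg hg'
    obtain ⟨hS1, hS2⟩ := size_S s B
    have hmain : ∀ m n m' n' : ℕ, 1 ≤ m → m ≤ n → 1 ≤ m' → m' ≤ n' →
        min (Real.log (den u n)) (Real.log (den v n')) ≤
        (S * Real.log ((B : ℝ) + 3) + max (Real.log (den u m)) (Real.log (den v m'))) *
          (A ^ 2) ^ ((wrong δ g s u m n).ncard + (wrong δ' g' s' v m' n').ncard + 1) := by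
      intro m n m' n' hm hmn hm' hmn'
      obtain ⟨p, hp, hc⟩ := cut_of_wrong δ g s u B hg _ hS2 m hm n hmn (gen_irr hu n)
      obtain ⟨p', hp', hc'⟩ := cut_of_wrong δ' g' s' v B hg' _ hS2 m' hm' n' hmn' (gen_irr hv n')
      refine (hcut _ m p n m' p' n' hS1 hm hm' hc hc').trans ?_
      have h3 := (log_den_nonneg u m).trans (le_max_left (Real.log (den u m)) (Real.log (den v m')))
      rw [← pow_mul]
      have h4 : A ^ (p + p') ≤
          A ^ (2 * ((wrong δ g s u m n).ncard + (wrong δ' g' s' v m' n').ncard + 1)) :=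
        pow_le_pow_right₀ hA.le (by omega)
      gcongr
    refine ⟨fun m n m' n' hm hmn hm' hmn' => (hmain m n m' n' hm hmn hm' hmn').trans ?_,
      fun n => ?_⟩
    · have h3 := (log_den_nonneg u m).trans (le_max_left (Real.log (den u m)) (Real.log (den v m')))
      have h4 : A ^ 2 ≤ 5 * A ^ 2 := by nlinarith
      gcongr
    · rcases Nat.eq_zero_or_pos n with hn | hn
      · subst hn
        exact pos_bound0 s B A _ hA
      · have h3 := hmain 1 n 1 n le_rfl hn le_rfl hn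
        have e : ∀ x : ℝ, Real.log ((den x 1 : ℤ) : ℝ) = 0 := fun x => by simp [den]
        rw [e, e, max_self, add_zero] at h3
        refine pos_bound s B A hA n _ (min (Real.log (den u n)) (Real.log (den v n))) ?_ h3
        have h4 := pos_le n hn (gen_irr hu n)
        have h5 := pos_le n hn (gen_irr hv n)
        rcases min_choice (Real.log (den u n)) (Real.log (den v n)) with h6 | h6 <;> rw [h6] <;>
          assumption
  obtain ⟨A₂, hA₂, g1, g2⟩ := alg_case h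
  obtain ⟨A₃, hA₃, g3, g4⟩ := alg_case h'
  obtain ⟨M, hM⟩ : ∃ M : ℝ, M = max (5 * A ^ 2) (max A₂ A₃) := ⟨_, rfl⟩
  have m1 : 5 * A ^ 2 ≤ M := by rw [hM]; exact le_max_left _ _
  have m2 : A₂ ≤ M := by rw [hM]; exact (le_max_left _ _).trans (le_max_right _ _)
  have m3 : A₃ ≤ M := by rw [hM]; exact (le_max_right _ _).trans (le_max_right _ _)
  exact ⟨M, lt_of_lt_of_le hA₂ m2, hcut.mono hA (hA2.trans m1), hE.mono (by nlinarith) m1,
    g1.mono hA₂ m2, g3.mono hA₃ m3, g2.mono hA₂ m2, g4.mono hA₃ m3⟩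

end Pool.Agent.U829.CF
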