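import Pool.Agent.U829.CF.Ladder

set_option autoImplicit false

/-! # Automata which predict partial quotients -/

namespace Pool.Agent.U829.CF

lemma den_step {x : ℝ} {n : ℕ} (hn : 1 ≤ n) (hG : Gen x (n + 1)) (B : ℕ) (hB : quot x n ≤ B) :
    (den x (n + 1) : ℝ) ≤ (B + 1) * den x n := by
  obtain ⟨k, rfl⟩ : ∃ k, n = k + 1 := ⟨n - 1, by omega⟩
  have h1 : den x k ≤ den x (k + 1) := den_succ_le (hG.mono (by omega))
  have h2 := den_pos (hG.mono (show k + 1 ≤ k + 1 + 1 by omega)) (by omega)
  have h3 : den x (k + 1 + 1) ≤ (B + 1) * den x (k + 1) := by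
    rw [den_add_two]
    nlinarith
  exact_mod_cast h3

lemma den_growth {x : ℝ} {m : ℕ} (hm : 1 ≤ m) (B : ℕ) (j : ℕ) (hG : Gen x (m + j))
    (hB : ∀ i, m ≤ i → i < m + j → quot x i ≤ B) :
    (den x (m + j) : ℝ) ≤ ((B : ℝ) + 1) ^ j * den x m := by
  induction j with
  | zero => simp
  | succ j ih =>
    have h1 := ih (hG.mono (by omega)) (fun i h2 h3 => hB i h2 (by omega))
    have h2 := den_step (x := x) (n := m + j) (by omega) hG B (hB (m + j) (by omega) (by omega))
    rw [← add_assoc, pow_succ]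
    have : (0 : ℝ) ≤ (B : ℝ) + 1 := by positivity
    calc (den x (m + j + 1) : ℝ) ≤ (B + 1) * den x (m + j) := h2
      _ ≤ (B + 1) * (((B : ℝ) + 1) ^ j * den x m) := by gcongr
      _ = _ := by ring

/-- a stretch without wrong predictions is a piece -/
lemma stretch {S : ℕ} (δ : Fin S → ℤ → Fin S) (g : Fin S → ℤ) (s : Fin S) (x : ℝ) (B : ℕ)
    (hg : ∀ t, g t ≤ B) (R : ℝ) (hR : ((B : ℝ) + 1) ^ S ≤ Real.exp R) (m n : ℕ) (hm : 1 ≤ m)
    (hmn : m < n) (hG : Gen x n)
    (hok : ∀ i, m ≤ i → i < n → quot x i = g (state δ s x (i - 1))) : Piece x R m n := by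
  have hB : ∀ i, m ≤ i → i < n → quot x i ≤ B := fun i h1 h2 => by
    rw [hok i h1 h2]
    exact hg _
  have hqm : (1 : ℝ) ≤ den x m := by exact_mod_cast den_pos (hG.mono hmn.le) hm
  refine ⟨hmn, fun i h1 h2 => hG i (by omega) h2, Or.inr ?_⟩
  obtain ⟨j₁, j₂, hj, hjeq⟩ : ∃ j₁ j₂ : Fin (S + 1), j₁ < j₂ ∧
      state δ s x (m - 1 + j₁) = state δ s x (m - 1 + j₂) := by
    obtain ⟨a, b, hab, he⟩ := Fintype.exists_ne_map_eq_of_card_lt
      (fun j : Fin (S + 1) => state δ s x (m - 1 + j)) (by simp)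
    rcases lt_or_gt_of_ne hab with h | h
    · exact ⟨a, b, h, he⟩
    · exact ⟨b, a, h, he.symm⟩
  have hj' : (j₁ : ℕ) < j₂ := hj
  have hj2 : (j₂ : ℕ) ≤ S := Nat.lt_succ_iff.1 j₂.2
  have hgrow : ∀ j : ℕ, j ≤ S → m + j ≤ n → (den x (m + j) : ℝ) ≤ Real.exp R * den x m := by
    intro j hjS hjn
    have h1 := den_growth hm B j (hG.mono hjn) (fun i h2 h3 => hB i h2 (by omega))
    refine h1.trans ?_
    have hB1 : (1 : ℝ) ≤ (B : ℝ) + 1 := by
      have : (0 : ℝ) ≤ B := Nat.cast_nonneg B
      linarith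
    have h2 : ((B : ℝ) + 1) ^ j ≤ Real.exp R := (pow_le_pow_right₀ hB1 hjS).trans hR
    gcongr
  by_cases hcase : m + j₂ ≤ n
  · obtain ⟨k, hk⟩ : ∃ k : ℕ, (j₂ : ℕ) = j₁ + k := ⟨j₂ - j₁, by omega⟩
    have hstate : ∀ i, m - 1 + j₁ ≤ i → i + k + 1 ≤ n → state δ s x (i + k) = state δ s x i := by
      intro i hi
      induction i, hi using Nat.le_induction with
      | base =>
        intro _
        have e : m - 1 + (j₁ : ℕ) + k = m - 1 + j₂ := by omega
        rw [e, hjeq]
      | succ i hi ih =>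
        intro h1
        have h2 := ih (by omega)
        have e1 : i + 1 + k = (i + k) + 1 := by ring
        rw [e1]
        change δ (state δ s x (i + k)) (quot x (i + k + 1)) = δ (state δ s x i) (quot x (i + 1))
        have h3 := hok (i + k + 1) (by omega) (by omega)
        have h4 := hok (i + 1) (by omega) (by omega)
        rw [Nat.add_sub_cancel] at h3 h4
        rw [h3, h4, h2]
    refine ⟨m + j₁, k, by omega, by omega, by omega, ?_, ?_⟩
    · have := hgrow j₂ hj2 hcase
      rwa [hk, ← add_assoc] at this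
    · intro i hi hin
      have h3 := hok (i + k) (by omega) (by omega)
      have h4 := hok i (by omega) (by omega)
      rw [h3, h4]
      have e : i + k - 1 = (i - 1) + k := by omega
      rw [e, hstate (i - 1) (by omega) (by omega)]
  · refine ⟨n - 1, 1, by omega, le_rfl, by omega, ?_, ?_⟩
    · have e : n - 1 + 1 = m + (n - m) := by omega
      rw [e]
      exact hgrow (n - m) (by omega) (by omega)
    · intro i h1 h2
      omega

lemma Cut.append {x R : ℝ} {m p l n : ℕ} (h : Cut x R m p l) (h' : Piece x R l n) :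
    Cut x R m (p + 1) n := by
  obtain ⟨c, h0, hp, hc⟩ := h
  refine ⟨fun j => if j ≤ p then c j else n, by simp [h0], by simp, ?_⟩
  intro j hj
  simp only [show j ≤ p by omega, if_true]
  by_cases hjp : j = p
  · subst hjp
    simp only [show ¬ (j + 1 ≤ j) by omega, if_false]
    rw [hp]
    exact h'
  · simp only [show j + 1 ≤ p by omega, if_true]
    exact hc j (by omega)

lemma wrong_finite {S : ℕ} (δ : Fin S → ℤ → Fin S) (g : Fin S → ℤ) (s : Fin S) (x : ℝ) (m n : ℕ) :
    (wrong δ g s x m n).Finite :=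
  (Set.finite_Iio n).subset fun _ hi => hi.2.1

/-- few wrong predictions give a cutting into few pieces -/
lemma cut_of_wrong {S : ℕ} (δ : Fin S → ℤ → Fin S) (g : Fin S → ℤ) (s : Fin S) (x : ℝ) (B : ℕ)
    (hg : ∀ t, g t ≤ B) (R : ℝ) (hR : ((B : ℝ) + 1) ^ S ≤ Real.exp R) (m : ℕ) (hm : 1 ≤ m) (n : ℕ)
    (hmn : m ≤ n) (hG : Gen x n) :
    ∃ p, p ≤ 2 * (wrong δ g s x m n).ncard + 1 ∧ Cut x R m p n := by
  have key : ∀ n, m ≤ n → Gen x n → ∃ l p, m ≤ l ∧ l ≤ n ∧ p ≤ 2 * (wrong δ g s x m n).ncard ∧
      Cut x R m p l ∧ ∀ i, l ≤ i → i < n → quot x i = g (state δ s x (i - 1)) := by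
    intro n hmn
    induction n, hmn using Nat.le_induction with
    | base =>
      intro _
      exact ⟨m, 0, le_rfl, le_rfl, Nat.zero_le _, ⟨fun _ => m, rfl, rfl, by simp⟩,
        fun i h1 h2 => by omega⟩
    | succ n hmn ih =>
      intro hG'
      obtain ⟨l, p, h1, h2, h3, h4, h5⟩ := ih (hG'.mono (Nat.le_succ n))
      by_cases hw : quot x n = g (state δ s x (n - 1))
      · refine ⟨l, p, h1, by omega, h3.trans ?_, h4, ?_⟩
        · have : (wrong δ g s x m n).ncard ≤ (wrong δ g s x m (n + 1)).ncard :=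
            Set.ncard_le_ncard (fun i hi => ⟨hi.1, by have := hi.2.1; omega, hi.2.2⟩)
              (wrong_finite δ g s x m (n + 1))
          omega
        · intro i h6 h7
          by_cases h8 : i < n
          · exact h5 i h6 h8
          · have : i = n := by omega
            subst this
            exact hw
      · have hcard : (wrong δ g s x m (n + 1)).ncard = (wrong δ g s x m n).ncard + 1 := by
          have e : wrong δ g s x m (n + 1) = insert n (wrong δ g s x m n) := by
            ext i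
            simp only [wrong, Set.mem_insert_iff, Set.mem_ofPred_eq]
            constructor
            · rintro ⟨g1, g2, g3⟩
              by_cases g4 : i = n
              · exact Or.inl g4
              · exact Or.inr ⟨g1, by omega, g3⟩
            · rintro (rfl | ⟨g1, g2, g3⟩)
              · exact ⟨hmn, by omega, hw⟩
              · exact ⟨g1, by omega, g3⟩
          rw [e, Set.ncard_insert_of_notMem (fun h => by have := h.2.1; omega)
            (wrong_finite δ g s x m n)]
        have hsingle : Piece x R n (n + 1) :=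
          ⟨by omega, fun i g1 g2 => hG' i (by omega) g2, Or.inl rfl⟩
        rcases Nat.eq_or_lt_of_le h2 with h6 | h6
        · subst h6
          exact ⟨l + 1, p + 1, by omega, le_rfl, by omega, h4.append hsingle,
            fun i g1 g2 => by omega⟩
        · have hst := stretch δ g s x B hg R hR l n (by omega) h6 (hG'.mono (Nat.le_succ n)) h5
          exact ⟨n + 1, p + 2, by omega, le_rfl, by omega, (h4.append hst).append hsingle,
            fun i g1 g2 => by omega⟩
  obtain ⟨l, p, h1, h2, h3, h4, h5⟩ := key n hmn hG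
  rcases Nat.eq_or_lt_of_le h2 with h6 | h6
  · subst h6
    exact ⟨p, by omega, h4⟩
  · exact ⟨p + 1, by omega, h4.append (stretch δ g s x B hg R hR l n (by omega) h6 hG h5)⟩

/-- the expansion of an irrational number is infinite -/
lemma gen_irr {x : ℝ} (hx : Irrational x) (n : ℕ) : Gen x n := by
  have hirr : ∀ i, Irrational (tail x i) := by
    intro i
    induction i with
    | zero => exact hx
    | succ i ih =>
      change Irrational (Int.fract (tail x i))⁻¹
      rw [irrational_inv_iff]
      have e : Int.fract (tail x i) = tail x i - (⌊tail x i⌋ : ℤ) := (Int.self_sub_floor _).symm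
      rw [e]
      exact ih.sub_intCast _
  intro i hi _
  obtain ⟨i, rfl⟩ : ∃ k, i = k + 1 := ⟨i - 1, by omega⟩
  unfold quot
  have ht : tail x (i + 1) = (Int.fract (tail x i))⁻¹ := rfl
  rw [ht, Int.le_floor]
  push_cast
  have hf0 : Int.fract (tail x i) ≠ 0 := by
    intro h0
    have h1 := hirr (i + 1)
    rw [ht, h0, inv_zero] at h1
    exact h1 ⟨0, by simp⟩
  have hf1 : 0 < Int.fract (tail x i) := lt_of_le_of_ne (Int.fract_nonneg _) (Ne.symm hf0)
  exact (one_le_inv₀ hf1).2 (Int.fract_lt_one _).le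

/-- the growth of the denominators -/
lemma den_large {x : ℝ} (n : ℕ) (hn : 1 ≤ n) (hG : Gen x n) : (2 : ℤ) ^ n ≤ 4 * den x n ^ 2 := by
  induction n using Nat.strong_induction_on with
  | _ n ih =>
    rcases n with _ | _ | _ | n
    · omega
    · simp [den]
    · have h := den_pos hG (by omega)
      have e : (2 : ℤ) ^ (0 + 1 + 1) = 4 := by norm_num
      rw [e]
      have h' : 1 ≤ den x (0 + 1 + 1) ^ 2 := one_le_pow₀ h
      linarith
    · have h1 := ih (n + 1) (by omega) (by omega) (hG.mono (by omega))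
      have h2 := hG (n + 2) (by omega) (by omega)
      have h3 := den_pos (hG.mono (show n + 1 ≤ n + 3 by omega)) (by omega)
      have h4 := den_succ_le (hG.mono (show n + 1 + 1 ≤ n + 3 by omega))
      have h5 : 2 * den x (n + 1) ≤ den x (n + 3) := by
        have e : den x (n + 3) = quot x (n + 2) * den x (n + 2) + den x (n + 1) := rfl
        rw [e]
        nlinarith
      have e : (2 : ℤ) ^ (n + 3) = 4 * 2 ^ (n + 1) := by ring
      change (2 : ℤ) ^ (n + 3) ≤ 4 * den x (n + 3) ^ 2
      rw [e]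
      nlinarith

lemma pos_le {x : ℝ} (n : ℕ) (hn : 1 ≤ n) (hG : Gen x n) : (n : ℝ) ≤ 2 + 3 * Real.log (den x n) := by
  have h1 : (2 : ℝ) ^ n ≤ 4 * (den x n : ℝ) ^ 2 := by exact_mod_cast den_large n hn hG
  have h2 : (1 : ℝ) ≤ den x n := by exact_mod_cast den_pos hG hn
  have h3 := Real.log_le_log (by positivity) h1
  rw [Real.log_pow, Real.log_mul (by norm_num) (by positivity), Real.log_pow,
    show (4 : ℝ) = 2 ^ 2 by norm_num, Real.log_pow] at h3
  push_cast at h3
  have h4 := Real.log_two_gt_d9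
  have h5 := Real.log_nonneg h2
  nlinarith

end Pool.Agent.U829.CF
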