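import Pool.Agent.U829.CF.Def

set_option autoImplicit false

/-! # Continued fractions: convergents -/

namespace Pool.Agent.U829.CF

/-- the numerators of the convergents -/
noncomputable def num (x : ℝ) : ℕ → ℤ
  | 0 => 1
  | 1 => quot x 0
  | n + 2 => quot x (n + 1) * num x (n + 1) + num x n

/-- `D_n = q_n x - p_n` -/
noncomputable def dd (x : ℝ) (n : ℕ) : ℝ := den x n * x - num x n

lemma den_add_two (x : ℝ) (n : ℕ) : den x (n + 2) = quot x (n + 1) * den x (n + 1) + den x n := rfl

lemma num_add_two (x : ℝ) (n : ℕ) : num x (n + 2) = quot x (n + 1) * num x (n + 1) + num x n := rfl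

lemma dd_add_two (x : ℝ) (n : ℕ) : dd x (n + 2) = quot x (n + 1) * dd x (n + 1) + dd x n := by
  unfold dd
  rw [den_add_two, num_add_two]
  push_cast
  ring

/-- the first `n` partial quotients are genuine -/
def Gen (x : ℝ) (n : ℕ) : Prop := ∀ i, 1 ≤ i → i < n → 1 ≤ quot x i

lemma Gen.mono {x : ℝ} {m n : ℕ} (h : Gen x n) (hmn : m ≤ n) : Gen x m :=
  fun i h1 h2 => h i h1 (by omega)

/-- the determinant -/
lemma det (x : ℝ) (n : ℕ) :
    den x (n + 1) * num x n - den x n * num x (n + 1) = (-1) ^ n := by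
  induction n with
  | zero => simp [den, num]
  | succ n ih =>
    rw [den_add_two, num_add_two, pow_succ]
    linear_combination (-1 : ℤ) * ih

lemma den_nonneg {x : ℝ} {n : ℕ} (h : Gen x n) : 0 ≤ den x n ∧ 0 ≤ den x (n - 1) := by
  induction n with
  | zero => simp [den]
  | succ n ih =>
    obtain ⟨h1, h2⟩ := ih (h.mono (Nat.le_succ n))
    refine ⟨?_, by simpa using h1⟩
    rcases n with _ | n
    · simp [den]
    · rw [den_add_two]
      have h3 := h (n + 1) (by omega) (by omega)
      have h4 : 0 ≤ den x n := by simpa using h2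
      positivity

lemma den_pos {x : ℝ} {n : ℕ} (h : Gen x n) (hn : 1 ≤ n) : 1 ≤ den x n := by
  induction n using Nat.strong_induction_on with
  | _ n ih =>
    rcases n with _ | n
    · omega
    rcases n with _ | n
    · simp [den]
    rw [den_add_two]
    have h3 := h (n + 1) (by omega) (by omega)
    have h4 := (den_nonneg (h.mono (show n ≤ n + 1 + 1 by omega))).1
    have h5 := ih (n + 1) (by omega) (h.mono (by omega)) (by omega)
    nlinarith

lemma den_succ_le {x : ℝ} {n : ℕ} (h : Gen x (n + 1)) : den x n ≤ den x (n + 1) := by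
  rcases n with _ | n
  · simp [den]
  rw [den_add_two]
  have h3 := h (n + 1) (by omega) (by omega)
  have h4 := (den_nonneg (h.mono (show n ≤ n + 1 + 1 by omega))).1
  have h5 := den_pos (h.mono (show n + 1 ≤ n + 1 + 1 by omega)) (by omega)
  nlinarith

lemma den_mono {x : ℝ} {m n : ℕ} (h : Gen x n) (hmn : m ≤ n) : den x m ≤ den x n := by
  induction n, hmn using Nat.le_induction with
  | base => exact le_rfl
  | succ n hmn ih => exact (ih (h.mono (Nat.le_succ n))).trans (den_succ_le h)

/-- the tails and the differences -/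
lemma dd_succ {x : ℝ} {n : ℕ} (h : Gen x (n + 1)) : dd x (n + 1) = - dd x n * Int.fract (tail x n) := by
  induction n with
  | zero =>
    unfold dd
    simp only [den, num, quot, tail]
    have := Int.self_sub_floor x
    push_cast
    linarith
  | succ n ih =>
    have h1 := ih (h.mono (by omega))
    have h2 := h (n + 1) (by omega) (by omega)
    have hf : Int.fract (tail x n) ≠ 0 := by
      intro h0
      unfold quot at h2
      simp only [tail] at h2
      rw [h0, inv_zero, Int.floor_zero] at h2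
      omega
    have ht : tail x (n + 1) = (Int.fract (tail x n))⁻¹ := rfl
    have h3 : dd x n = - dd x (n + 1) * tail x (n + 1) := by
      rw [h1, ht]
      field_simp
    rw [dd_add_two, h3]
    have h4 : Int.fract (tail x (n + 1)) = tail x (n + 1) - quot x (n + 1) := (Int.self_sub_floor _).symm
    rw [h4]
    ring

/-- the sizes -/
lemma dd_size {x : ℝ} {n : ℕ} (h : Gen x (n + 1)) :
    den x (n + 1) * |dd x n| + den x n * |dd x (n + 1)| = 1 := by
  have h1 := dd_succ h
  have hf := Int.fract_nonneg (tail x n)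
  have hdet : (den x (n + 1) : ℝ) * dd x n - den x n * dd x (n + 1) = - (-1) ^ n := by
    have h2 : (den x (n + 1) : ℝ) * num x n - den x n * num x (n + 1) = (-1) ^ n := by
      exact_mod_cast det x n
    unfold dd
    linear_combination (-1 : ℝ) * h2
  have hd0 : (0 : ℝ) ≤ den x n := by exact_mod_cast (den_nonneg (h.mono (Nat.le_succ n))).1
  have hd1 : (0 : ℝ) ≤ den x (n + 1) := by exact_mod_cast (den_nonneg h).1
  have habs : |(den x (n + 1) : ℝ) * dd x n - den x n * dd x (n + 1)| = 1 := by
    rw [hdet, abs_neg, abs_pow, abs_neg, abs_one, one_pow]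
  rcases le_total 0 (dd x n) with h3 | h3
  · have h4 : dd x (n + 1) ≤ 0 := by rw [h1]; nlinarith
    rw [abs_of_nonneg h3, abs_of_nonpos h4, ← habs, abs_of_nonneg (by nlinarith)]
    ring
  · have h4 : 0 ≤ dd x (n + 1) := by rw [h1]; nlinarith
    rw [abs_of_nonpos h3, abs_of_nonneg h4, ← habs, abs_of_nonpos (by nlinarith)]
    ring

lemma dd_le {x : ℝ} {n : ℕ} (h : Gen x (n + 1)) : |dd x n| ≤ 1 / den x (n + 1) := by
  have h1 := dd_size h
  have hd0 : (0 : ℝ) ≤ den x n := by exact_mod_cast (den_nonneg (h.mono (Nat.le_succ n))).1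
  have hd1 : (1 : ℝ) ≤ den x (n + 1) := by exact_mod_cast den_pos h (by omega)
  rw [le_div_iff₀ (by linarith)]
  have := mul_nonneg hd0 (abs_nonneg (dd x (n + 1)))
  linarith

/-- the last difference -/
lemma dd_le' {x : ℝ} {n : ℕ} (h : Gen x n) (hn : 1 ≤ n) : |dd x n| ≤ 1 / den x n := by
  obtain ⟨n, rfl⟩ : ∃ k, n = k + 1 := ⟨n - 1, by omega⟩
  have h1 := dd_succ h
  have h2 := dd_le h
  rw [h1, abs_mul, abs_neg]
  have h3 : |Int.fract (tail x n)| ≤ 1 := by
    rw [abs_of_nonneg (Int.fract_nonneg _)]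
    exact (Int.fract_lt_one _).le
  calc |dd x n| * |Int.fract (tail x n)| ≤ |dd x n| * 1 := by gcongr
    _ ≤ _ := by rw [mul_one]; exact h2

lemma num_le {x : ℝ} {n : ℕ} (h : Gen x (n + 1)) : |(num x n : ℝ)| ≤ (|x| + 1) * den x (n + 1) := by
  have h1 := dd_le h
  have hd0 : (0 : ℝ) ≤ den x n := by exact_mod_cast (den_nonneg (h.mono (Nat.le_succ n))).1
  have hd1 : (1 : ℝ) ≤ den x (n + 1) := by exact_mod_cast den_pos h (by omega)
  have hd2 : (den x n : ℝ) ≤ den x (n + 1) := by exact_mod_cast den_succ_le h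
  have h2 : 1 / (den x (n + 1) : ℝ) ≤ 1 := by
    rw [div_le_one (by linarith)]
    exact hd1
  have e : (num x n : ℝ) = den x n * x - dd x n := by unfold dd; ring
  rw [e]
  have h3 : |den x n * x - dd x n| ≤ |(den x n : ℝ) * x| + |dd x n| := abs_sub _ _
  rw [abs_mul, abs_of_nonneg hd0] at h3
  have h4 : (den x n : ℝ) * |x| ≤ den x (n + 1) * |x| := by gcongr
  nlinarith

lemma num_le' {x : ℝ} {n : ℕ} (h : Gen x n) (hn : 1 ≤ n) : |(num x n : ℝ)| ≤ (|x| + 1) * den x n := by
  have h1 := dd_le' h hn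
  have hd1 : (1 : ℝ) ≤ den x n := by exact_mod_cast den_pos h hn
  have h2 : 1 / (den x n : ℝ) ≤ 1 := by
    rw [div_le_one (by linarith)]
    exact hd1
  have e : (num x n : ℝ) = den x n * x - dd x n := by unfold dd; ring
  rw [e]
  have h3 : |den x n * x - dd x n| ≤ |(den x n : ℝ) * x| + |dd x n| := abs_sub _ _
  rw [abs_mul, abs_of_nonneg (by linarith : (0 : ℝ) ≤ den x n)] at h3
  nlinarith

end Pool.Agent.U829.CF
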