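import Mathlib

set_option autoImplicit false

/-! # Continued fractions: definitions -/

namespace Pool.Agent.U829.CF

/-- the complete quotients of `x`: `x_0 = x`, `x_{n+1} = 1 / (x_n - ⌊x_n⌋)` (`x_{n+1} = 0` if `x_n` is an integer) -/
noncomputable def tail (x : ℝ) : ℕ → ℝ
  | 0 => x
  | n + 1 => (Int.fract (tail x n))⁻¹

/-- the partial quotients `a_n = ⌊x_n⌋` of `x = [a_0; a_1, a_2, ...]` (`a_n = 0` after the end of a finite expansion) -/
noncomputable def quot (x : ℝ) (n : ℕ) : ℤ := ⌊tail x n⌋

/-- `den x n` is the denominator of `[a_0; a_1, ..., a_{n-1}]` (`n ≥ 1`) -/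
noncomputable def den (x : ℝ) : ℕ → ℤ
  | 0 => 0
  | 1 => 1
  | n + 2 => quot x (n + 1) * den x (n + 1) + den x n

/-- A piece `a_m, ..., a_{n-1}` of the expansion, of one of the following two kinds.
(1) A single partial quotient, of any size. (2) A piece `U V V ... V V'`, where `U` may be empty and `V'` is a
beginning of `V`, and where the denominators of the convergents grow by a factor of at most `exp R` from the
beginning of the piece to the end of the first `V`. -/
def Piece (x : ℝ) (R : ℝ) (m n : ℕ) : Prop :=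
  m < n ∧ (∀ i, m ≤ i → i < n → 1 ≤ quot x i) ∧
    (n = m + 1 ∨ ∃ r k : ℕ, m ≤ r ∧ 1 ≤ k ∧ r + k ≤ n ∧ (den x (r + k) : ℝ) ≤ Real.exp R * den x m ∧
      ∀ i, r ≤ i → i + k < n → quot x (i + k) = quot x i)

/-- The partial quotients `a_m, ..., a_{n-1}` can be cut into `p` such pieces. -/
def Cut (x : ℝ) (R : ℝ) (m p n : ℕ) : Prop :=
  ∃ c : ℕ → ℕ, c 0 = m ∧ c p = n ∧ ∀ j < p, Piece x R (c j) (c (j + 1))

/-- The states of an automaton with the transition function `δ`, which starts in the state `s` and reads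
`a_1, a_2, ...`: it is in the state `state δ s x n` when it has read `a_1, ..., a_n`. -/
noncomputable def state {S : ℕ} (δ : Fin S → ℤ → Fin S) (s : Fin S) (x : ℝ) : ℕ → Fin S
  | 0 => s
  | n + 1 => δ (state δ s x n) (quot x (n + 1))

/-- the wrong predictions: the `n` with `m ≤ n < N` such that `a_n` is not the number `g` which the automaton
announces after it has read `a_1, ..., a_{n-1}` -/
def wrong {S : ℕ} (δ : Fin S → ℤ → Fin S) (g : Fin S → ℤ) (s : Fin S) (x : ℝ) (m N : ℕ) : Set ℕ :=
  {n | m ≤ n ∧ n < N ∧ quot x n ≠ g (state δ s x (n - 1))}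

end Pool.Agent.U829.CF
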