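import Pool.Agent.U829.CF.Poly

set_option autoImplicit false

/-! # Two continued fractions with few pieces -/

namespace Pool.Agent.U829.CF

open Polynomial

/-- two ladders that may not have long steps at the same height -/
theorem ladder (y z : ℕ → ℝ) (a R M : ℝ) (ha : 1 ≤ a) (hR : 0 ≤ R) (hM : 0 ≤ M) (p q : ℕ) (hy0 : y 0 ≤ M)
    (hz0 : z 0 ≤ M)
    (h : ∀ j < p, ∀ i < q, min (y (j + 1)) (z (i + 1)) ≤ a * (R + max (y j) (z i))) :
    min (y p) (z q) ≤ (R + M) * (a + 1) ^ (p + q) := by
  have ha1 : 1 ≤ a + 1 := by linarith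
  have key : ∀ k : ℕ, min (y p) (z q) ≤ (R + M) * (a + 1) ^ k - R ∨ ∃ j i, j + i = k ∧ j < p ∧ i < q ∧
      y j ≤ (R + M) * (a + 1) ^ k - R ∧ z i ≤ (R + M) * (a + 1) ^ k - R := by
    intro k
    induction k with
    | zero =>
      rw [pow_zero, mul_one]
      by_cases hp : p = 0
      · left
        subst hp
        exact (min_le_left _ _).trans (by linarith)
      by_cases hq : q = 0
      · left
        subst hq
        exact (min_le_right _ _).trans (by linarith)
      right
      exact ⟨0, 0, rfl, by omega, by omega, by linarith, by linarith⟩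
    | succ k ih =>
      obtain ⟨T, hT⟩ : ∃ T : ℝ, T = (R + M) * (a + 1) ^ k := ⟨_, rfl⟩
      have hT1 : R + M ≤ T := by
        rw [hT]
        have := one_le_pow₀ ha1 (n := k)
        nlinarith
      have hstep : a * T ≤ (R + M) * (a + 1) ^ (k + 1) - R := by
        have e : (R + M) * (a + 1) ^ (k + 1) = T * (a + 1) := by rw [hT]; ring
        rw [e]
        nlinarith
      have hmono : T - R ≤ (R + M) * (a + 1) ^ (k + 1) - R := by
        have : T ≤ a * T := by nlinarith
        linarith
      rw [← hT] at ih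
      rcases ih with ih | ⟨j, i, hji, hj, hi, hyj, hzi⟩
      · left
        exact ih.trans hmono
      · have h1 := h j hj i hi
        have h2 : a * (R + max (y j) (z i)) ≤ a * T := by
          have : max (y j) (z i) ≤ T - R := max_le hyj hzi
          have h3 : R + max (y j) (z i) ≤ T := by linarith
          exact mul_le_mul_of_nonneg_left h3 (by linarith)
        rcases min_le_iff.1 (h1.trans (h2.trans hstep)) with h3 | h3
        · by_cases hjp : j + 1 = p
          · left
            rw [← hjp]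
            exact (min_le_left _ _).trans h3
          · right
            exact ⟨j + 1, i, by omega, by omega, hi, h3, hzi.trans hmono⟩
        · by_cases hiq : i + 1 = q
          · left
            rw [← hiq]
            exact (min_le_right _ _).trans h3
          · right
            exact ⟨j, i + 1, by omega, hj, by omega, hyj.trans hmono, h3⟩
  rcases key (p + q) with h1 | ⟨j, i, hji, hj, hi, -⟩
  · linarith
  · omega

/-- a genuine partial quotient is preceded by genuine partial quotients -/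
lemma gen_of_last {x : ℝ} {m : ℕ} (h : 1 ≤ quot x m) : Gen x (m + 1) := by
  have key : ∀ i, 1 ≤ i → ¬ 1 ≤ quot x i → ∀ j, tail x (i + j) = 0 := by
    intro i hi hq j
    induction j with
    | zero =>
      obtain ⟨i, rfl⟩ : ∃ k, i = k + 1 := ⟨i - 1, by omega⟩
      rw [add_zero]
      by_contra hne
      apply hq
      unfold quot
      have ht : tail x (i + 1) = (Int.fract (tail x i))⁻¹ := rfl
      rw [ht] at hne ⊢
      have hf0 : Int.fract (tail x i) ≠ 0 := fun h0 => hne (by rw [h0, inv_zero])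
      have hf1 : 0 < Int.fract (tail x i) := lt_of_le_of_ne (Int.fract_nonneg _) (Ne.symm hf0)
      rw [Int.le_floor]
      push_cast
      exact (one_le_inv₀ hf1).2 (Int.fract_lt_one _).le
    | succ j ih =>
      have ht : tail x (i + (j + 1)) = (Int.fract (tail x (i + j)))⁻¹ := rfl
      rw [ht, ih, Int.fract_zero, inv_zero]
  intro i hi him
  by_contra hcon
  rcases Nat.lt_or_ge i m with h1 | h1
  · obtain ⟨j, rfl⟩ : ∃ j, m = i + j := ⟨m - i, by omega⟩
    unfold quot at h
    rw [key i hi hcon j, Int.floor_zero] at h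
    omega
  · have : i = m := by omega
    subst this
    exact hcon h

lemma gen_of_piece {x R : ℝ} {m n : ℕ} (h : Piece x R m n) : Gen x n := by
  obtain ⟨h1, h2, -⟩ := h
  have h3 := gen_of_last (h2 (n - 1) (by omega) (by omega))
  rwa [show n - 1 + 1 = n by omega] at h3

/-- the polynomial of a piece, in terms of the logarithms of the denominators -/
lemma piece_poly' {x R : ℝ} {m n : ℕ} (hR : 0 ≤ R) (hm : 1 ≤ m) (h : Piece x R m n) :
    ∃ P : ℤ[X], P ≠ 0 ∧ P.natDegree ≤ 2 ∧
      (∀ k, |((P.coeff k : ℤ) : ℝ)| ≤ 4 * (|x| + 1) ^ 2 * Real.exp (2 * (R + Real.log (den x m)))) ∧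
      |aeval x P| ≤ 2 * Real.exp (- Real.log (den x n)) := by
  have hG := gen_of_piece h
  obtain ⟨P, h1, h2, h3, h4⟩ := piece_poly hR hm hG h
  have hqm : (0 : ℝ) < den x m := by exact_mod_cast den_pos (hG.mono h.1.le) hm
  have hqn : (0 : ℝ) < den x n := by exact_mod_cast den_pos hG (by have := h.1; omega)
  refine ⟨P, h1, h2, ?_, ?_⟩
  · have e : Real.exp (2 * (R + Real.log (den x m))) = (Real.exp R * den x m) ^ 2 := by
      rw [two_mul, Real.exp_add, Real.exp_add, Real.exp_log hqm]
      ring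
    rw [e]
    exact h3
  · rw [Real.exp_neg, Real.exp_log hqn]
    exact h4

/-- the joint measure of two real numbers, for the polynomials of degree at most `D` -/
def Joint (u v : ℝ) (D : ℕ) : Prop :=
  ∃ κ C : ℝ, 0 < κ ∧ 0 < C ∧ ∀ P Q : ℤ[X], P ≠ 0 → Q ≠ 0 → P.natDegree ≤ D →
    Q.natDegree ≤ D → ∀ H : ℝ, (∀ k, |((P.coeff k : ℤ) : ℝ)| ≤ H) →
    (∀ k, |((Q.coeff k : ℤ) : ℝ)| ≤ H) → C * H ^ (-κ) ≤ max |aeval u P| |aeval v Q|

/-- small values of polynomials at both numbers, at the same height -/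
lemma joint_log {u v : ℝ} {D : ℕ} (h : Joint u v D) (K : ℝ) (hK : 1 ≤ K) :
    ∃ a : ℝ, 1 ≤ a ∧ ∀ P Q : ℤ[X], P ≠ 0 → Q ≠ 0 → P.natDegree ≤ D → Q.natDegree ≤ D →
      ∀ R Y Z : ℝ, 1 ≤ R → 0 ≤ Y → (∀ k, |((P.coeff k : ℤ) : ℝ)| ≤ K * Real.exp (2 * (R + Y))) →
      (∀ k, |((Q.coeff k : ℤ) : ℝ)| ≤ K * Real.exp (2 * (R + Y))) →
      |aeval u P| ≤ 2 * Real.exp (-Z) → |aeval v Q| ≤ 2 * Real.exp (-Z) → Z ≤ a * (R + Y) := by
  obtain ⟨κ, C, hκ, hC, hj⟩ := h
  obtain ⟨c, hc⟩ : ∃ c : ℝ, c = Real.log 2 - Real.log C + κ * Real.log K := ⟨_, rfl⟩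
  refine ⟨2 * κ + |c| + 1, by have := abs_nonneg c; linarith, ?_⟩
  intro P Q hP hQ hPD hQD R Y Z hR hY hPH hQH hPu hQv
  have h1 := hj P Q hP hQ hPD hQD _ hPH hQH
  have hK0 : 0 < K := by linarith
  have h2 : C * (K * Real.exp (2 * (R + Y))) ^ (-κ) ≤ 2 * Real.exp (-Z) :=
    h1.trans (max_le hPu hQv)
  have h3 := Real.log_le_log (by positivity) h2
  rw [Real.log_mul hC.ne' (by positivity), Real.log_rpow (by positivity),
    Real.log_mul hK0.ne' (Real.exp_pos _).ne', Real.log_exp, Real.log_mul (by norm_num)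
    (Real.exp_pos _).ne', Real.log_exp] at h3
  have h4 : Z ≤ c + 2 * κ * (R + Y) := by
    rw [hc]
    nlinarith
  have h5 : c ≤ |c| := le_abs_self c
  have h6 : |c| ≤ |c| * (R + Y) := by
    have := abs_nonneg c
    nlinarith
  nlinarith

lemma cut_mono {x R : ℝ} {m p : ℕ} (c : ℕ → ℕ) (h0 : c 0 = m)
    (h : ∀ j < p, Piece x R (c j) (c (j + 1))) (j : ℕ) (hj : j ≤ p) : m ≤ c j := by
  induction j with
  | zero => rw [h0]
  | succ j ih => exact (ih (by omega)).trans (h j (by omega)).1.le

/-- **Two continued fractions with few pieces.** -/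
theorem two_cuts {u v : ℝ} (h : Joint u v 2) : ∃ A : ℝ, 1 < A ∧ ∀ (R : ℝ) (m p n m' p' n' : ℕ), 1 ≤ R →
    1 ≤ m → 1 ≤ m' → Cut u R m p n → Cut v R m' p' n' →
    min (Real.log (den u n)) (Real.log (den v n')) ≤
      (R + max 0 (max (Real.log (den u m)) (Real.log (den v m')))) * A ^ (p + p') := by
  obtain ⟨K, hK⟩ : ∃ K : ℝ, K = max (4 * (|u| + 1) ^ 2) (4 * (|v| + 1) ^ 2) := ⟨_, rfl⟩
  have hK1 : 1 ≤ K := by
    rw [hK]
    refine le_trans ?_ (le_max_left _ _)
    have := abs_nonneg u
    nlinarith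
  obtain ⟨a, ha, hj⟩ := joint_log h K hK1
  refine ⟨a + 1, by linarith, ?_⟩
  intro R m p n m' p' n' hR hm hm' ⟨c, hc0, hcp, hc⟩ ⟨c', hc0', hcp', hc'⟩
  have h1 := ladder (fun j => Real.log (den u (c j))) (fun j => Real.log (den v (c' j))) a R
    (max 0 (max (Real.log (den u m)) (Real.log (den v m')))) ha (by linarith) (le_max_left _ _) p p'
    (by simp only [hc0]; exact (le_max_left _ _).trans (le_max_right _ _))
    (by simp only [hc0']; exact (le_max_right _ _).trans (le_max_right _ _)) (by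
      intro j hj1 i hi1
      have hcj := cut_mono c hc0 hc j hj1.le
      have hci := cut_mono c' hc0' hc' i hi1.le
      have hp1 := hc j hj1
      have hp2 := hc' i hi1
      obtain ⟨P, g1, g2, g3, g4⟩ := piece_poly' (by linarith) (hm.trans hcj) hp1
      obtain ⟨Q, f1, f2, f3, f4⟩ := piece_poly' (by linarith) (hm'.trans hci) hp2
      have hden : (1 : ℝ) ≤ den u (c j) := by
        exact_mod_cast den_pos ((gen_of_piece hp1).mono hp1.1.le) (hm.trans hcj)
      refine hj P Q g1 f1 g2 f2 R (max (Real.log (den u (c j))) (Real.log (den v (c' i)))) _ hR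
        ((Real.log_nonneg hden).trans (le_max_left _ _)) ?_ ?_ ?_ ?_
      · intro k
        refine (g3 k).trans ?_
        have e1 : 4 * (|u| + 1) ^ 2 ≤ K := by rw [hK]; exact le_max_left _ _
        have e2 := le_max_left (Real.log (den u (c j))) (Real.log (den v (c' i)))
        gcongr
      · intro k
        refine (f3 k).trans ?_
        have e1 : 4 * (|v| + 1) ^ 2 ≤ K := by rw [hK]; exact le_max_right _ _
        have e2 := le_max_right (Real.log (den u (c j))) (Real.log (den v (c' i)))
        gcongr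
      · refine g4.trans ?_
        have := min_le_left (Real.log (den u (c (j + 1)))) (Real.log (den v (c' (i + 1))))
        gcongr
      · refine f4.trans ?_
        have := min_le_right (Real.log (den u (c (j + 1)))) (Real.log (den v (c' (i + 1))))
        gcongr)
  simp only [hcp, hcp'] at h1
  exact h1

/-- **The continued fraction of `v`, if `u` is algebraic.** -/
theorem one_cut {u v : ℝ} (h : ∀ D, Joint u v D) (hu : IsAlgebraic ℤ u) : ∃ A : ℝ, 1 < A ∧
    ∀ (R : ℝ) (m' p' n' : ℕ), 1 ≤ R → 1 ≤ m' → Cut v R m' p' n' →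
    Real.log (den v n') ≤ (R + max 0 (Real.log (den v m'))) * A ^ (p' + 1) := by
  obtain ⟨P, hP, hPu⟩ := hu
  obtain ⟨D, hD⟩ : ∃ D : ℕ, D = max 2 P.natDegree := ⟨_, rfl⟩
  obtain ⟨L, hL⟩ : ∃ L : ℝ, ∀ k, |((P.coeff k : ℤ) : ℝ)| ≤ L := by
    refine ⟨∑ k ∈ Finset.range (P.natDegree + 1), |((P.coeff k : ℤ) : ℝ)|, fun k => ?_⟩
    by_cases hk : k ≤ P.natDegree
    · exact Finset.single_le_sum (f := fun k => |((P.coeff k : ℤ) : ℝ)|) (fun _ _ => abs_nonneg _)
        (Finset.mem_range.2 (by omega))
    · rw [coeff_eq_zero_of_natDegree_lt (by omega)]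
      simp only [Int.cast_zero, abs_zero]
      exact Finset.sum_nonneg fun _ _ => abs_nonneg _
  obtain ⟨K, hK⟩ : ∃ K : ℝ, K = max L (4 * (|v| + 1) ^ 2) := ⟨_, rfl⟩
  have hK1 : 1 ≤ K := by
    rw [hK]
    refine le_trans ?_ (le_max_right _ _)
    have := abs_nonneg v
    nlinarith
  obtain ⟨a, ha, hj⟩ := joint_log (h D) K hK1
  refine ⟨a + 1, by linarith, ?_⟩
  intro R m' p' n' hR hm' ⟨c', hc0', hcp', hc'⟩
  have h1 := ladder (fun j => if j = 0 then 0 else Real.log (den v n'))
    (fun j => Real.log (den v (c' j))) a R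
    (max 0 (Real.log (den v m'))) ha (by linarith) (le_max_left _ _) 1 p' (by simp)
    (by simp only [hc0']; exact le_max_right _ _) (by
      intro j hj1 i hi1
      have hj0 : j = 0 := by omega
      subst hj0
      simp only [if_true, zero_add, one_ne_zero, if_false]
      have hci := cut_mono c' hc0' hc' i hi1.le
      have hp2 := hc' i hi1
      obtain ⟨Q, f1, f2, f3, f4⟩ := piece_poly' (by linarith) (hm'.trans hci) hp2
      refine (min_le_right _ _).trans ?_
      refine hj P Q hP f1 (by rw [hD]; exact le_max_right _ _)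
        (f2.trans (by rw [hD]; exact le_max_left _ _)) R (max 0 (Real.log (den v (c' i)))) _ hR
        (le_max_left _ _) ?_ ?_ ?_ ?_
      · intro k
        refine (hL k).trans ?_
        have e1 : L ≤ K := by rw [hK]; exact le_max_left _ _
        have e2 : 0 ≤ 2 * (R + max 0 (Real.log (den v (c' i)))) := by
          have := le_max_left 0 (Real.log (den v (c' i)))
          linarith
        have e3 := Real.one_le_exp e2
        nlinarith
      · intro k
        refine (f3 k).trans ?_
        have e1 : 4 * (|v| + 1) ^ 2 ≤ K := by rw [hK]; exact le_max_right _ _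
        have e2 := le_max_right 0 (Real.log (den v (c' i)))
        gcongr
      · rw [hPu, abs_zero]
        positivity
      · exact f4)
  simp only [one_ne_zero, if_false, hcp'] at h1
  rw [min_self] at h1
  refine h1.trans (le_of_eq ?_)
  rw [add_comm 1 p']

end Pool.Agent.U829.CF
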