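import Pool.Agent.U829.CF.Basic

set_option autoImplicit false

/-! # Polynomials with small values given by the pieces of a continued fraction -/

namespace Pool.Agent.U829.CF

open Polynomial

/-- the determinant of two pairs of consecutive differences -/
noncomputable def wr (x : ℝ) (k i : ℕ) : ℝ := dd x i * dd x (i + k + 1) - dd x (i + 1) * dd x (i + k)

lemma wr_succ {x : ℝ} {k i : ℕ} (h : quot x (i + 1 + k) = quot x (i + 1)) :
    wr x k (i + 1) = - wr x k i := by
  unfold wr
  have e1 : i + 1 + k + 1 = (i + k) + 2 := by ring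
  have e2 : i + 1 + k = i + k + 1 := by ring
  have e3 : i + 1 + 1 = i + 2 := by ring
  rw [e1, e2, e3, dd_add_two x (i + k), dd_add_two x i]
  rw [e2] at h
  rw [h]
  ring

lemma wr_abs {x : ℝ} {k s n : ℕ} (h : ∀ i, s + 1 ≤ i → i + k < n → quot x (i + k) = quot x i)
    (i : ℕ) (hi : s ≤ i) (hin : i + k + 1 ≤ n) : |wr x k i| = |wr x k s| := by
  induction i, hi using Nat.le_induction with
  | base => rfl
  | succ i hi ih =>
    rw [wr_succ (h (i + 1) (by omega) (by omega)), abs_neg]
    exact ih (by omega)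

/-- different convergents are different -/
lemma cross_pos {x : ℝ} {r : ℕ} (hr : 1 ≤ r) (k : ℕ) (h : Gen x (r + k + 1)) :
    0 ≤ (-1 : ℤ) ^ r * (den x (r + k) * num x r - num x (r + k) * den x r) ∧
      1 ≤ (-1 : ℤ) ^ r * (den x (r + k + 1) * num x r - num x (r + k + 1) * den x r) := by
  induction k with
  | zero =>
    refine ⟨le_of_eq (by rw [add_zero]; ring), ?_⟩
    have h1 := det x r
    have h2 : den x (r + 0 + 1) * num x r - num x (r + 0 + 1) * den x r = (-1) ^ r := by
      rw [add_zero]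
      linear_combination h1
    rw [h2, ← mul_pow]
    norm_num
  | succ k ih =>
    obtain ⟨h1, h2⟩ := ih (h.mono (by omega))
    have e1 : r + (k + 1) = r + k + 1 := by ring
    rw [e1]
    refine ⟨by linarith, ?_⟩
    have e2 : r + k + 1 + 1 = (r + k) + 2 := by ring
    rw [e2, den_add_two, num_add_two]
    have h3 := h (r + k + 1) (by omega) (by omega)
    have e3 : (-1 : ℤ) ^ r * ((quot x (r + k + 1) * den x (r + k + 1) + den x (r + k)) * num x r -
        (quot x (r + k + 1) * num x (r + k + 1) + num x (r + k)) * den x r) =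
        quot x (r + k + 1) * ((-1 : ℤ) ^ r * (den x (r + k + 1) * num x r - num x (r + k + 1) * den x r)) +
        (-1 : ℤ) ^ r * (den x (r + k) * num x r - num x (r + k) * den x r) := by ring
    rw [e3]
    nlinarith

lemma cross_ne {x : ℝ} {r : ℕ} (hr : 1 ≤ r) (k : ℕ) (hk : 1 ≤ k) (h : Gen x (r + k)) :
    den x (r + k) * num x r - num x (r + k) * den x r ≠ 0 := by
  obtain ⟨k, rfl⟩ : ∃ j, k = j + 1 := ⟨k - 1, by omega⟩
  have h1 := (cross_pos hr k (by rw [add_assoc]; exact h)).2
  rw [← add_assoc]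
  intro h0
  rw [h0, mul_zero] at h1
  omega

/-- the polynomial of a quadratic form -/
lemma quad_poly (a b c : ℤ) (x K : ℝ) (hne : ¬ (a = 0 ∧ b = 0 ∧ c = 0)) (ha : |(a : ℝ)| ≤ K)
    (hb : |(b : ℝ)| ≤ K) (hc : |(c : ℝ)| ≤ K) :
    ∃ P : ℤ[X], P ≠ 0 ∧ P.natDegree ≤ 2 ∧ (∀ k, |((P.coeff k : ℤ) : ℝ)| ≤ K) ∧
      aeval x P = a * x ^ 2 + b * x + c := by
  have hc0 : (C a * X ^ 2 + C b * X + C c : ℤ[X]).coeff 0 = c := by
    simp only [coeff_add, coeff_C_mul, coeff_X_pow, coeff_X, coeff_C]
    norm_num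
  have hc1 : (C a * X ^ 2 + C b * X + C c : ℤ[X]).coeff 1 = b := by
    simp only [coeff_add, coeff_C_mul, coeff_X_pow, coeff_X, coeff_C]
    norm_num
  have hc2 : (C a * X ^ 2 + C b * X + C c : ℤ[X]).coeff 2 = a := by
    simp only [coeff_add, coeff_C_mul, coeff_X_pow, coeff_X, coeff_C]
    norm_num
  have hdeg : (C a * X ^ 2 + C b * X + C c : ℤ[X]).natDegree ≤ 2 := natDegree_quadratic_le
  refine ⟨C a * X ^ 2 + C b * X + C c, ?_, hdeg, ?_, ?_⟩
  · intro h0
    rw [h0] at hc0 hc1 hc2
    simp only [coeff_zero] at hc0 hc1 hc2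
    exact hne ⟨hc2.symm, hc1.symm, hc0.symm⟩
  · intro k
    rcases k with _ | _ | _ | k
    · rw [hc0]; exact hc
    · rw [hc1]; exact hb
    · rw [hc2]; exact ha
    · rw [coeff_eq_zero_of_natDegree_lt (by omega)]
      simpa using (abs_nonneg _).trans ha
  · simp

lemma piece_poly {x R : ℝ} {m n : ℕ} (hR : 0 ≤ R) (hm : 1 ≤ m) (hG : Gen x n) (h : Piece x R m n) :
    ∃ P : ℤ[X], P ≠ 0 ∧ P.natDegree ≤ 2 ∧
      (∀ k, |((P.coeff k : ℤ) : ℝ)| ≤ 4 * (|x| + 1) ^ 2 * (Real.exp R * den x m) ^ 2) ∧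
      |aeval x P| ≤ 2 / den x n := by
  obtain ⟨hmn, -, hor⟩ := h
  have hx : 0 ≤ |x| := abs_nonneg x
  have hqm : (1 : ℝ) ≤ den x m := by exact_mod_cast den_pos (hG.mono hmn.le) hm
  have hqn : (1 : ℝ) ≤ den x n := by exact_mod_cast den_pos hG (by omega)
  have hE : 1 ≤ Real.exp R := Real.one_le_exp hR
  rcases hor with hn | ⟨r, k, hmr, hk, hrk, hgrow, hper⟩
  · subst hn
    have hnum := num_le' (hG.mono (Nat.le_succ m)) hm
    have hdm := den_nonneg (hG.mono (Nat.le_succ m))
    have hK1 : (|x| + 1) * den x m ≤ 4 * (|x| + 1) ^ 2 * (Real.exp R * den x m) ^ 2 := by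
      have h1 : (den x m : ℝ) ≤ Real.exp R * den x m := by nlinarith
      have h2 : Real.exp R * den x m ≤ (Real.exp R * den x m) ^ 2 := by nlinarith
      have h3 : |x| + 1 ≤ 4 * (|x| + 1) ^ 2 := by nlinarith
      calc (|x| + 1) * den x m ≤ (4 * (|x| + 1) ^ 2) * (Real.exp R * den x m) ^ 2 := by
            apply mul_le_mul h3 (h1.trans h2) (by linarith) (by positivity)
        _ = _ := by ring
    have hden1 : (den x m : ℝ) ≤ (|x| + 1) * den x m := by nlinarith
    obtain ⟨P, hP, hdeg, hcoeff, hval⟩ := quad_poly 0 (den x m) (- num x m) x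
      (4 * (|x| + 1) ^ 2 * (Real.exp R * den x m) ^ 2) (by
        rintro ⟨-, h1, -⟩
        rw [h1] at hqm
        norm_num at hqm) (by simp; positivity) (by
        rw [abs_of_nonneg (by linarith)]
        linarith) (by
        push_cast
        rw [abs_neg]
        linarith)
    refine ⟨P, hP, hdeg, hcoeff, ?_⟩
    rw [hval]
    have e : ((0 : ℤ) : ℝ) * x ^ 2 + den x m * x + ((- num x m : ℤ) : ℝ) = dd x m := by
      unfold dd; push_cast; ring
    rw [e]
    refine (dd_le hG).trans ?_
    gcongr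
    norm_num
  · obtain ⟨s, rfl⟩ : ∃ s, r = s + 1 := ⟨r - 1, by omega⟩
    have hGrk : Gen x (s + 1 + k) := hG.mono hrk
    obtain ⟨q, hq⟩ : ∃ q : ℝ, q = den x (s + 1 + k) := ⟨_, rfl⟩
    have hq1 : 1 ≤ q := by rw [hq]; exact_mod_cast den_pos hGrk (by omega)
    have hqR : q ≤ Real.exp R * den x m := by rw [hq]; exact hgrow
    -- bounds for all terms
    have hbd : ∀ i, i ≤ s + 1 + k → |(den x i : ℝ)| ≤ q ∧ |(num x i : ℝ)| ≤ (|x| + 1) * q := by
      intro i hi
      have h0 : (0 : ℝ) ≤ den x i := by exact_mod_cast (den_nonneg (hGrk.mono hi)).1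
      have h1 : (den x i : ℝ) ≤ q := by rw [hq]; exact_mod_cast den_mono hGrk hi
      refine ⟨by rw [abs_of_nonneg h0]; exact h1, ?_⟩
      rcases Nat.eq_zero_or_pos i with h2 | h2
      · subst h2
        simp only [num, Int.cast_one, abs_one]
        nlinarith
      · refine (num_le' (hGrk.mono hi) h2).trans ?_
        gcongr
    obtain ⟨A, hA⟩ : ∃ A : ℝ, A = (|x| + 1) * q := ⟨_, rfl⟩
    have hA1 : q ≤ A := by rw [hA]; nlinarith
    have hA0 : 0 ≤ A := by linarith
    have hbd' : ∀ i, i ≤ s + 1 + k → |(den x i : ℝ)| ≤ A ∧ |(num x i : ℝ)| ≤ A := fun i hi =>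
      ⟨(hbd i hi).1.trans hA1, by rw [hA]; exact (hbd i hi).2⟩
    have hprod : ∀ u v : ℝ, |u| ≤ A → |v| ≤ A → |u * v| ≤ A ^ 2 := by
      intro u v hu hv
      rw [abs_mul, sq]
      exact mul_le_mul hu hv (abs_nonneg _) hA0
    have hfin : 4 * A ^ 2 ≤ 4 * (|x| + 1) ^ 2 * (Real.exp R * den x m) ^ 2 := by
      rw [hA, mul_pow, mul_assoc]
      gcongr
    have hs1 := hbd' s (by omega)
    have hs2 := hbd' (s + 1) (by omega)
    have hs3 := hbd' (s + k) (by omega)
    have hs4 := hbd' (s + 1 + k) (by omega)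
    obtain ⟨P, hP, hdeg, hcoeff, hval⟩ := quad_poly
      (den x s * den x (s + 1 + k) - den x (s + 1) * den x (s + k))
      (-(den x s * num x (s + 1 + k) + num x s * den x (s + 1 + k)) +
        (den x (s + 1) * num x (s + k) + num x (s + 1) * den x (s + k)))
      (num x s * num x (s + 1 + k) - num x (s + 1) * num x (s + k)) x
      (4 * (|x| + 1) ^ 2 * (Real.exp R * den x m) ^ 2) (by
        rintro ⟨h1, h2, h3⟩
        have h4 := cross_ne (x := x) (r := s + 1) (by omega) k hk hGrk
        have h5 := det x s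
        have h6 : (den x (s + 1) * num x s - den x s * num x (s + 1)) *
            (den x (s + 1 + k) * num x (s + 1) - num x (s + 1 + k) * den x (s + 1)) = 0 := by
          linear_combination (-(num x (s + 1)) ^ 2) * h1 + (- num x (s + 1) * den x (s + 1)) * h2 +
            (-(den x (s + 1)) ^ 2) * h3
        rcases mul_eq_zero.1 h6 with h7 | h7
        · rw [h5] at h7
          exact absurd h7 (by positivity)
        · exact h4 h7) (by
        push_cast
        have h1 := abs_sub ((den x s : ℝ) * den x (s + 1 + k)) (den x (s + 1) * den x (s + k))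
        have h2 := hprod _ _ hs1.1 hs4.1
        have h3 := hprod _ _ hs2.1 hs3.1
        have : 0 ≤ A ^ 2 := sq_nonneg A
        linarith) (by
        push_cast
        have h1 := abs_add_le (-((den x s : ℝ) * num x (s + 1 + k) + num x s * den x (s + 1 + k)))
          (den x (s + 1) * num x (s + k) + num x (s + 1) * den x (s + k))
        rw [abs_neg] at h1
        have h2 := abs_add_le ((den x s : ℝ) * num x (s + 1 + k)) (num x s * den x (s + 1 + k))
        have h3 := abs_add_le ((den x (s + 1) : ℝ) * num x (s + k)) (num x (s + 1) * den x (s + k))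
        have h4 := hprod _ _ hs1.1 hs4.2
        have h5 := hprod _ _ hs1.2 hs4.1
        have h6 := hprod _ _ hs2.1 hs3.2
        have h7 := hprod _ _ hs2.2 hs3.1
        linarith) (by
        push_cast
        have h1 := abs_sub ((num x s : ℝ) * num x (s + 1 + k)) (num x (s + 1) * num x (s + k))
        have h2 := hprod _ _ hs1.2 hs4.2
        have h3 := hprod _ _ hs2.2 hs3.2
        have : 0 ≤ A ^ 2 := sq_nonneg A
        linarith)
    refine ⟨P, hP, hdeg, hcoeff, ?_⟩
    have hW : aeval x P = wr x k s := by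
      rw [hval]
      unfold wr dd
      have e1 : s + k + 1 = s + 1 + k := by ring
      rw [e1]
      push_cast
      ring
    rw [hW]
    obtain ⟨i, hi⟩ : ∃ i, n = i + k + 1 := ⟨n - k - 1, by omega⟩
    have hWi := wr_abs (x := x) (k := k) (s := s) (n := n) (fun j h1 h2 => hper j h1 h2) i (by omega)
      (by omega)
    rw [← hWi]
    unfold wr
    rw [← hi]
    have hone : ∀ j, j + 1 ≤ n → |dd x j| ≤ 1 := by
      intro j hj
      refine (dd_le (hG.mono hj)).trans ?_
      have : (1 : ℝ) ≤ den x (j + 1) := by exact_mod_cast den_pos (hG.mono hj) (by omega)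
      rw [div_le_one (by linarith)]
      exact this
    have g1 := hone i (by omega)
    have g2 := hone (i + 1) (by omega)
    have g3 := dd_le' hG (by omega)
    have g4 : |dd x (i + k)| ≤ 1 / den x n := by
      have := dd_le (x := x) (n := i + k) (by rw [← hi]; exact hG)
      rw [← hi] at this
      exact this
    have hinv : 0 ≤ 1 / (den x n : ℝ) := by positivity
    calc |dd x i * dd x n - dd x (i + 1) * dd x (i + k)|
        ≤ |dd x i * dd x n| + |dd x (i + 1) * dd x (i + k)| := abs_sub _ _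
      _ ≤ 1 * (1 / den x n) + 1 * (1 / den x n) := by
          rw [abs_mul, abs_mul]
          gcongr
      _ = 2 / den x n := by ring

end Pool.Agent.U829.CF
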